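import Pool.Agent.L0h18.HZ.Geo2
import Pool.Agent.L0h55.HZ.TOP
import Pool.Agent.L0h59.HZ.Sep
import Pool.Agent.L0h61.HZ.DENS
import Pool.Agent.L0h61.HZ.RIG1
import Pool.Agent.L0h78.HZ.INV
import Pool.Agent.L0h78.HZ.NIL
import Pool.Agent.L0h78.HZ.COV
import Pool.Agent.L0h88.HZ.RIG2
import Pool.Agent.L0h71.HZ.EXP

/-!
# HZ: the modules
-/

set_option autoImplicit false

open Pool.Agent.Y167 (Sys cone)
open Pool.Agent.N110.CC Pool.Agent.N165.KM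

namespace Pool.Agent.L0h18.HZ

theorem m_top : S_TOP := Pool.Agent.L0h55.HZ.top
theorem m_nil : S_NIL := Pool.Agent.L0h78.HZ.t_NIL
theorem m_rig2 : S_RIG2 :=
  Pool.Agent.L0h88.HZ.rig2 m_top (Pool.Agent.L0h61.HZ.rig1 Pool.Agent.L0h59.HZ.sep Pool.Agent.L0h61.HZ.dens
    Pool.Agent.L0h78.HZ.t_INV)
theorem m_cov : S_COV := Pool.Agent.L0h78.HZ.t_COV

theorem rigid_of {A : Type} [Ring A] [Algebra ℝ A] {r ρ : ℕ} {S : Sys A r} {Φ : (Fin ρ → ℝ) →ₗ[ℝ] A}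
    (hS : Herm S Φ) {𝒢 : Set ((Fin ρ → ℝ) ≃ₗ[ℝ] (Fin ρ → ℝ))} (h𝒢 : FinIdxU S Φ 𝒢) :
    Rigid 𝒢 (pd S Φ) (psd S Φ) := by
  intro D hD hDp hDi hDne
  exact m_rig2 A r ρ S Φ hS D hD hDp (m_nil A r ρ S Φ hS 𝒢 h𝒢 D hD hDi) hDne

end Pool.Agent.L0h18.HZ
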