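import Pool.Agent.L0h18.HZ.Defs

/-!
# HZ: a cone which has a rational polyhedral fundamental domain contains all integral vectors of its closure

If `e + p / n = T y` with `y = ∑ c s • s` then the `c s` are bounded and `T⁻¹ e` is bounded; pass to the
limit along an ultrafilter.
-/

set_option autoImplicit false

open Pool.Agent.Y167 (cone)
open Pool.Agent.N165.KM (IntL exists_int_functional mem_IntL finite_bdd)
open Filter Topology

namespace Pool.Agent.L0h18.HZ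

theorem exp2 {ρ : ℕ} {C P E : Set (Fin ρ → ℝ)} (hC : CCone C) (hCp : ∀ x ∈ C, -x ∈ C → x = 0)
    {p : Fin ρ → ℝ} (hp : p ∈ P) (hCP : ∀ x ∈ C, ∀ t : ℝ, 0 < t → x + t • p ∈ P)
    {𝒢 : Set ((Fin ρ → ℝ) ≃ₗ[ℝ] (Fin ρ → ℝ))}
    (hTint : ∀ T ∈ 𝒢, ∀ x ∈ IntL ρ, T x ∈ IntL ρ ∧ T.symm x ∈ IntL ρ)
    (hTcl : ∀ T ∈ 𝒢, ∀ x ∈ C, T x ∈ C ∧ T.symm x ∈ C)
    (hPE : P ⊆ E) (hEC : E ⊆ C) {S : Finset (Fin ρ → ℝ)} (hS : ∀ s ∈ S, s ∈ IntL ρ)
    (hE : E = ⋃ T ∈ 𝒢, T '' cone S) {e : Fin ρ → ℝ} (he : e ∈ IntL ρ) (heC : e ∈ C) : e ∈ E := by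
  classical
  obtain ⟨ξ, hξ1, hξ2⟩ := exists_int_functional hC.closed hC.add hC.smul hCp
  have hpC : p ∈ C := hEC (hPE hp)
  have h0C : (0 : Fin ρ → ℝ) ∈ C := by
    have := hC.smul 0 le_rfl p hpC
    rwa [zero_smul] at this
  -- the sequence
  have hseq : ∀ n : ℕ, ∃ T ∈ 𝒢, ∃ c : (Fin ρ → ℝ) → ℝ, (∀ s, 0 ≤ c s) ∧ c 0 = 0 ∧
      T (∑ s ∈ S, c s • s) = e + (1 / ((n : ℝ) + 1)) • p := by
    intro n
    have h1 := hPE (hCP e heC (1 / ((n : ℝ) + 1)) (by positivity))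
    rw [hE] at h1
    obtain ⟨T, hT, y, ⟨c, hc, hy⟩, hTy⟩ := Set.mem_iUnion₂.1 h1
    refine ⟨T, hT, fun s => if s = 0 then 0 else c s, fun s => ?_, if_pos rfl, ?_⟩
    · beta_reduce
      split_ifs
      · exact le_rfl
      · exact hc s
    · rw [← hTy, hy]
      congr 1
      refine Finset.sum_congr rfl fun s _ => ?_
      by_cases hs : s = 0
      · rw [hs, smul_zero, smul_zero]
      · beta_reduce
        rw [if_neg hs]
  choose T hT c hc hc0 hx using hseq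
  have hSC : ∀ s ∈ S, s ∈ C := by
    intro s hs
    have h1 : s ∈ cone S := by
      refine ⟨fun a => if a = s then 1 else 0, fun a => by beta_reduce; split_ifs <;> norm_num, ?_⟩
      simp only [ite_smul, one_smul, zero_smul, Finset.sum_ite_eq', if_pos hs]
    have h2 : T 0 s ∈ E := by
      rw [hE]
      exact Set.mem_iUnion₂.2 ⟨T 0, hT 0, ⟨s, h1, rfl⟩⟩
    have h3 := (hTcl (T 0) (hT 0) _ (hEC h2)).2
    rwa [LinearEquiv.symm_apply_apply] at h3
  have hone : ∀ z ∈ IntL ρ, z ∈ C → z ≠ 0 → 1 ≤ ξ z := by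
    intro z hz hzC hz0
    obtain ⟨m, hm⟩ := hξ1 z hz
    have h1 := hξ2 z hzC
    have h2 : 0 < ‖z‖ := norm_pos_iff.2 hz0
    rw [hm] at h1 ⊢
    have h3 : (0 : ℝ) < m := lt_of_lt_of_le h2 h1
    have h4 : 0 < m := by exact_mod_cast h3
    exact_mod_cast h4
  have hξC : ∀ z ∈ C, 0 ≤ ξ z := fun z hz => (norm_nonneg _).trans (hξ2 z hz)
  obtain ⟨B, hB⟩ : ∃ B, B = ξ e + ξ p := ⟨_, rfl⟩
  have hB0 : 0 ≤ B := by rw [hB]; exact add_nonneg (hξC e heC) (hξC p hpC)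
  have hsum : ∀ n, ∑ s ∈ S, c n s * ξ (T n s) ≤ B := by
    intro n
    have h1 : ξ (T n (∑ s ∈ S, c n s • s)) = ∑ s ∈ S, c n s * ξ (T n s) := by
      rw [map_sum, map_sum]
      refine Finset.sum_congr rfl fun s _ => ?_
      rw [map_smul, map_smul, smul_eq_mul]
    rw [← h1, hx n, map_add, map_smul, smul_eq_mul, hB]
    have h2 : 1 / ((n : ℝ) + 1) ≤ 1 := by
      rw [div_le_one (by positivity)]
      linarith [(Nat.cast_nonneg n : (0 : ℝ) ≤ n)]
    nlinarith [hξC p hpC]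
  have hTs : ∀ n, ∀ s ∈ S, 0 ≤ ξ (T n s) := fun n s hs => hξC _ (hTcl _ (hT n) s (hSC s hs)).1
  have hcT : ∀ n, ∀ s ∈ S, c n s * ξ (T n s) ≤ B := fun n s hs =>
    (Finset.single_le_sum (f := fun s => c n s * ξ (T n s))
      (fun s hs => mul_nonneg (hc n s) (hTs n s hs)) hs).trans (hsum n)
  have hcB : ∀ n, ∀ s ∈ S, c n s ≤ B := by
    intro n s hs
    by_cases h0 : s = 0
    · rw [h0, hc0]
      exact hB0
    · have h1 := hone _ (hTint _ (hT n) s (hS s hs)).1 (hTcl _ (hT n) s (hSC s hs)).1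
        (fun h => h0 ((T n).map_eq_zero_iff.1 h))
      have h2 := hcT n s hs
      nlinarith [hc n s]
  -- the ultrafilter
  obtain ⟨𝒰, h𝒰⟩ : ∃ 𝒰 : Ultrafilter ℕ, (𝒰 : Filter ℕ) ≤ atTop := ⟨Ultrafilter.of atTop, Ultrafilter.of_le _⟩
  have hlim : ∀ s, ∃ l : ℝ, 0 ≤ l ∧ (s ∈ S → Tendsto (fun n => c n s) 𝒰 (𝓝 l)) := by
    intro s
    by_cases hs : s ∈ S
    · obtain ⟨l, hl, hle⟩ := (isCompact_Icc (a := (0 : ℝ)) (b := B)).ultrafilter_le_nhds
        (𝒰.map (fun n => c n s)) (by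
          rw [Ultrafilter.coe_map, le_principal_iff]
          exact Filter.mem_map.2 (Filter.univ_mem' fun n => ⟨hc n s, hcB n s hs⟩))
      exact ⟨l, hl.1, fun _ => hle⟩
    · exact ⟨0, le_rfl, fun h => absurd h hs⟩
  choose l hl0 hl using hlim
  have hconst : ∀ (f : ℕ → Fin ρ → ℝ) (R : ℝ), (∀ᶠ n in (𝒰 : Filter ℕ), f n ∈ IntL ρ ∧ ‖f n‖ ≤ R) →
      ∃ v, ∀ᶠ n in (𝒰 : Filter ℕ), f n = v := by
    intro f R hf
    have h1 : (⋃ v ∈ {x : Fin ρ → ℝ | x ∈ IntL ρ ∧ ‖x‖ ≤ R}, {n | f n = v}) ∈ 𝒰 := by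
      refine mem_of_superset hf fun n hn => ?_
      exact Set.mem_iUnion₂.2 ⟨f n, hn, rfl⟩
    obtain ⟨v, -, hv⟩ := (Ultrafilter.finite_biUnion_mem_iff (finite_bdd R)).1 h1
    exact ⟨v, hv⟩
  have hTe : ∀ n, (∑ s ∈ S, c n s • s) - (T n).symm e = (1 / ((n : ℝ) + 1)) • (T n).symm p := by
    intro n
    have h1 : (T n).symm (T n (∑ s ∈ S, c n s • s)) = (T n).symm e + (1 / ((n : ℝ) + 1)) • (T n).symm p := by
      rw [hx n, map_add, map_smul]
    rw [LinearEquiv.symm_apply_apply] at h1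
    rw [h1, add_sub_cancel_left]
  obtain ⟨e', he'⟩ := hconst (fun n => (T n).symm e) (∑ s ∈ S, B * ξ s) (Eventually.of_forall fun n => by
    refine ⟨(hTint _ (hT n) e he).2, (hξ2 _ (hTcl _ (hT n) e heC).2).trans ?_⟩
    have h1 : 0 ≤ ξ ((1 / ((n : ℝ) + 1)) • (T n).symm p) :=
      hξC _ (hC.smul _ (by positivity) _ (hTcl _ (hT n) p hpC).2)
    rw [← hTe n, map_sub, sub_nonneg] at h1
    refine h1.trans ?_
    rw [map_sum]
    refine Finset.sum_le_sum fun s hs => ?_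
    rw [map_smul, smul_eq_mul]
    exact mul_le_mul_of_nonneg_right (hcB n s hs) (hξC s (hSC s hs)))
  have hv : ∀ s, ∃ v, s ∈ S → l s ≠ 0 → ∀ᶠ n in (𝒰 : Filter ℕ), T n s = v := by
    intro s
    by_cases hs : s ∈ S
    · by_cases h0 : l s = 0
      · exact ⟨0, fun _ h => absurd h0 h⟩
      · have hls : 0 < l s := lt_of_le_of_ne (hl0 s) (Ne.symm h0)
        obtain ⟨v, hv⟩ := hconst (fun n => T n s) (B / (l s / 2)) (by
          have h1 : ∀ᶠ n in (𝒰 : Filter ℕ), l s / 2 < c n s :=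
            (hl s hs).eventually (lt_mem_nhds (by linarith))
          filter_upwards [h1] with n hn
          refine ⟨(hTint _ (hT n) s (hS s hs)).1, (hξ2 _ (hTcl _ (hT n) s (hSC s hs)).1).trans ?_⟩
          rw [le_div_iff₀ (by linarith)]
          have h2 := hcT n s hs
          nlinarith [hTs n s hs])
        exact ⟨v, fun _ _ => hv⟩
    · exact ⟨0, fun h => absurd h hs⟩
  choose v hv using hv
  -- the limits
  have hy : Tendsto (fun n => ∑ s ∈ S, c n s • s) (𝒰 : Filter ℕ) (𝓝 (∑ s ∈ S, l s • s)) :=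
    tendsto_finsetSum _ fun s hs => (hl s hs).smul_const s
  have hd : (∑ s ∈ S, l s • s) - e' ∈ C := by
    refine hC.closed.mem_of_tendsto (hy.sub_const e') ?_
    filter_upwards [he'] with n hn
    rw [← hn, hTe n]
    exact hC.smul _ (by positivity) _ (hTcl _ (hT n) p hpC).2
  have hTy : ∀ᶠ n in (𝒰 : Filter ℕ), ∀ s ∈ S, l s ≠ 0 → T n s = v s := by
    rw [Filter.eventually_all_finset]
    intro s hs
    by_cases h0 : l s = 0
    · exact Eventually.of_forall fun n h => absurd h0 h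
    · filter_upwards [hv s hs h0] with n hn _
      exact hn
  obtain ⟨a, ha⟩ : ∃ a, a = ∑ s ∈ S.filter (fun s => l s ≠ 0), l s • v s := ⟨_, rfl⟩
  have hTa : ∀ᶠ n in (𝒰 : Filter ℕ), T n (∑ s ∈ S, l s • s) = a := by
    filter_upwards [hTy] with n hn
    rw [map_sum, ha, Finset.sum_filter]
    refine Finset.sum_congr rfl fun s hs => ?_
    rw [map_smul]
    by_cases h0 : l s = 0
    · rw [if_neg (not_not.2 h0), h0, zero_smul]
    · rw [if_pos h0, hn s hs h0]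
  have hsumC : ∀ (F : Finset (Fin ρ → ℝ)) (f : (Fin ρ → ℝ) → Fin ρ → ℝ), (∀ s ∈ F, f s ∈ C) →
      ∑ s ∈ F, f s ∈ C := by
    intro F f hf
    exact Finset.sum_induction f (· ∈ C) (fun x z hx hz => hC.add x hx z hz) h0C hf
  have hea : e - a ∈ C := by
    have h1 : Tendsto (fun n : ℕ => (1 / ((n : ℝ) + 1))) (𝒰 : Filter ℕ) (𝓝 0) :=
      tendsto_one_div_add_atTop_nhds_zero_nat.mono_left h𝒰
    have h2 : Tendsto (fun n : ℕ => (e + (1 / ((n : ℝ) + 1)) • p) -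
        ∑ s ∈ S.filter (fun s => l s ≠ 0), c n s • v s) (𝒰 : Filter ℕ) (𝓝 (e - a)) := by
      have h3 := (h1.smul_const p).const_add e
      rw [zero_smul, add_zero] at h3
      rw [ha]
      exact h3.sub (tendsto_finsetSum _ fun s hs => (hl s (Finset.mem_filter.1 hs).1).smul_const _)
    refine hC.closed.mem_of_tendsto h2 ?_
    filter_upwards [hTy] with n hn
    rw [← hx n, map_sum, ← Finset.sum_filter_add_sum_filter_not S (fun s => l s ≠ 0)]
    have h4 : ∑ s ∈ S.filter (fun s => l s ≠ 0), T n (c n s • s) =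
        ∑ s ∈ S.filter (fun s => l s ≠ 0), c n s • v s := by
      refine Finset.sum_congr rfl fun s hs => ?_
      rw [map_smul, hn s (Finset.mem_filter.1 hs).1 (Finset.mem_filter.1 hs).2]
    rw [h4, add_sub_cancel_left]
    refine hsumC _ _ fun s hs => ?_
    rw [map_smul]
    exact hC.smul _ (hc n s) _ (hTcl _ (hT n) s (hSC s (Finset.mem_filter.1 hs).1)).1
  obtain ⟨n, hn1, hn2⟩ := (hTa.and he').exists
  have hae : a - e ∈ C := by
    have h1 := (hTcl _ (hT n) _ hd).1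
    rw [map_sub, hn1, ← hn2, LinearEquiv.apply_symm_apply] at h1
    exact h1
  have hfin : a = e := by
    have h1 := hCp _ hae (by rwa [neg_sub])
    exact sub_eq_zero.1 h1
  rw [hE]
  refine Set.mem_iUnion₂.2 ⟨T n, hT n, _, ⟨l, hl0, rfl⟩, ?_⟩
  rw [hn1, hfin]

end Pool.Agent.L0h18.HZ
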