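import Pool.Agent.L0h18.HZ.Geo
import Pool.Agent.L0h18.HZ.Exp2
import Pool.Agent.L0h71.HZ.EXP

/-!
# HZ: the cone conjecture and the effectivity of the integral classes
-/

set_option autoImplicit false
set_option linter.unusedSectionVars false

open FF Pool.Agent.W602.GT Pool.Agent.Y172 Pool.Agent.R887
open Pool.Agent.Y167 (cone cone_image cone_ind zero_mem_cone mem_cone_self cone_add cone_smul
  cone_mono)
open Pool.Agent.N110 Pool.Agent.N110.PA Pool.Agent.N110.NV Pool.Agent.N492.PA Pool.Agent.N110.CC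
open Pool.Agent.N165.KM (IntL Sandwich HasFD interior_add_mem interior_smul_mem)
open Pool.Agent.L0h18.CO
open Filter Topology

namespace Pool.Agent.L0h18.HZ

section

variable {K : Type} [Field K] [Algebra ℂ K] {N n ρ : ℕ} {y : Fin (N + 1) → K}
  {c : Place ℂ K → Fin ρ → ℤ} {𝒮 𝒯 : Subgroup (K ≃ₐ[ℂ] K)} {P : Set (Fin ρ → ℝ)}

/-- **main theorem** -/
theorem mainG2 (hy : NormalModel y) (hc : PicardBasis y c) (h𝒮𝒯 : 𝒮 ≤ 𝒯)
    (h𝒯 : ∀ φ ∈ 𝒯, PseudoAut φ y) {C : Set (Fin ρ → ℝ)} (hC : CCone C) (hop : IsOpenCone P)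
    (hcl : closure P = C) (hint' : interior C = P)
    (hPne : P.Nonempty) {F₀ : Finset (Fin ρ → ℝ)} (hcov : ∀ x ∈ P, ∃ T ∈ pulls y c 𝒮, T x ∈ cone F₀)
    (hF₀ : ∀ a ∈ F₀, a ∈ IntL ρ ∧ a ∈ C)
    (hCE : CE y c = C) {A : Set (Fin ρ → ℝ)} (hA : A = C) :
    HasFundDomain (pulls y c 𝒯) (coneOf {x : Fin ρ → ℝ | (∀ i, ∃ m : ℤ, x i = (m : ℝ)) ∧ x ∈ A}) ∧
    (HasFundDomain (pulls y c 𝒯) (A ∩ effCone y c) ↔
      ∀ e ∈ A, (∀ i, ∃ m : ℤ, e i = (m : ℝ)) → e ∈ effCone y c) ∧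
    ∃ F : Finset (Fin ρ → ℝ), (∀ e ∈ F, (∀ i, ∃ m : ℤ, e i = (m : ℝ)) ∧ e ∈ A ∧ e ∉ interior A) ∧
      (HasFundDomain (pulls y c 𝒯) (A ∩ effCone y c) ↔ ∀ e ∈ F, e ∈ effCone y c) := by
  classical
  obtain ⟨h1, -, F, hF, hFe⟩ := mainG (𝒮 := 𝒮) (𝒯 := 𝒯) (P := P) (C := C) Pool.Agent.L0h71.HZ.exp hy hc
    h𝒮𝒯 h𝒯 hC hop hcl hint' hPne hcov hF₀ hCE hA
  subst hA
  have hlat := lat hy hc h𝒯
  have hCp : ∀ x ∈ A, -x ∈ A → x = 0 := by
    intro x hx hx'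
    rw [← hcl] at hx hx'
    exact hop.pointed x hx hx'
  obtain ⟨hE1, hE2⟩ := Pool.Agent.N40.CC.leafEFF K N ρ y hy c hc
  have hPE : P ⊆ effCone y c := by
    rw [← hint', ← hCE]
    exact hE2
  have hPA : P ⊆ A := by
    rw [← hcl]
    exact subset_closure
  have hpresC : ∀ T ∈ pulls y c 𝒯, ∀ x ∈ A, T x ∈ A := by
    intro T hT x hx
    rw [← hCE] at hx ⊢
    exact hlat.pres T hT x hx
  have hfwd : HasFundDomain (pulls y c 𝒯) (A ∩ effCone y c) →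
      ∀ e ∈ A, (∀ i, ∃ m : ℤ, e i = (m : ℝ)) → e ∈ effCone y c := by
    rintro ⟨S, hS, hU, -⟩ e heA he
    obtain ⟨p, hp⟩ := hPne
    refine (exp2 (C := A) (P := P) (E := A ∩ effCone y c) hC hCp hp (fun x hx t ht => ?_)
      (fun T hT x hx => ⟨hlat.int T hT x hx, hlat.int _ (hlat.symm T hT) x hx⟩)
      (fun T hT x hx => ⟨hpresC T hT x hx, hpresC _ (hlat.symm T hT) x hx⟩)
      (fun x hx => ⟨hPA hx, hPE hx⟩) Set.inter_subset_left hS hU he heA).2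
    have h2 : t • p ∈ interior A := by
      rw [hint']
      exact hop.smul t ht p hp
    have h3 := interior_add_mem hC.add h2 hx
    rw [hint', add_comm] at h3
    exact h3
  refine ⟨h1, ⟨hfwd, fun h => (hFe fun e he => h e (hF e he).2 (hF e he).1).1⟩,
    F.filter (fun e => e ∉ interior A), fun e he => ?_, fun h e he => ?_, fun h => (hFe fun e he => ?_).1⟩
  · obtain ⟨he1, he2⟩ := Finset.mem_filter.1 he
    exact ⟨(hF e he1).1, (hF e he1).2, he2⟩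
  · obtain ⟨he1, he2⟩ := Finset.mem_filter.1 he
    exact hfwd h e (hF e he1).2 (hF e he1).1
  · by_cases h2 : e ∈ interior A
    · rw [hint'] at h2
      exact hPE h2
    · exact h e (Finset.mem_filter.2 ⟨he, h2⟩)

end

end Pool.Agent.L0h18.HZ
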