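import Pool.Agent.Y167.Core
import Pool.Agent.N165.KM.Basic
import Pool.Agent.L0h18.CO.Defs

/-!
# HZ: hermitian elements of orders in real algebras with a positive involution

`Pool.Agent.Y167.Sys A r`: a real algebra `A` of dimension `r` with a positive involution `st` and an order `R`;
`S.Psd`, `S.Pd`: positive semidefinite and definite elements (they are self-adjoint); `S.Int`: integral elements;
`Pool.Agent.Y167.reduction` is the reduction theory. `IntL ρ` are the integral vectors of `ℝ ^ ρ`.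
-/

set_option autoImplicit false

open Pool.Agent.Y167 (Sys cone)
open Pool.Agent.N165.KM (IntL)
open Pool.Agent.L0h18.CO (IsOpenCone)
open Topology

namespace Pool.Agent.L0h18.HZ

variable {A : Type} [Ring A] [Algebra ℝ A] {r ρ : ℕ}

/-- `u` is a unit of the order. -/
def IsUnitR (S : Sys A r) (u : A) : Prop := u ∈ S.R ∧ ∃ v ∈ S.R, u * v = 1 ∧ v * u = 1

/-- The two-sided ideal generated by `x` is the whole algebra. -/
def Full (x : A) : Prop := ∃ (m : ℕ) (p q : Fin m → A), ∑ i, p i * x * q i = 1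

/-- `Φ` identifies `ℝ ^ ρ` with the self-adjoint elements of `A`; the integral self-adjoint elements correspond to
vectors with bounded denominators; some element of the order has square zero and generates `A` as an ideal. -/
structure Herm (S : Sys A r) (Φ : (Fin ρ → ℝ) →ₗ[ℝ] A) : Prop where
  pos : 0 < r
  inj : Function.Injective Φ
  range : ∀ a, S.st a = a ↔ ∃ x, Φ x = a
  lat : ∃ M : ℕ, 0 < M ∧ ∀ x, S.Int (Φ x) → (M : ℝ) • x ∈ IntL ρ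
  nil : ∃ x ∈ S.R, x * x = 0 ∧ Full x

/-- The open cone of positive definite vectors. -/
def pd (S : Sys A r) (Φ : (Fin ρ → ℝ) →ₗ[ℝ] A) : Set (Fin ρ → ℝ) := {x | S.Pd (Φ x)}

/-- The closed cone of positive semidefinite vectors. -/
def psd (S : Sys A r) (Φ : (Fin ρ → ℝ) →ₗ[ℝ] A) : Set (Fin ρ → ℝ) := {x | S.Psd (Φ x)}

/-- `T` is the action `a ↦ u* a u` of `u`. -/
def Acts (S : Sys A r) (Φ : (Fin ρ → ℝ) →ₗ[ℝ] A) (T : (Fin ρ → ℝ) ≃ₗ[ℝ] (Fin ρ → ℝ)) (u : A) : Prop :=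
  ∀ x, Φ (T x) = S.st u * Φ x * u

/-- `𝒢` is a group, the image of a subgroup of finite index of the group of units of the order. -/
structure FinIdxU (S : Sys A r) (Φ : (Fin ρ → ℝ) →ₗ[ℝ] A) (𝒢 : Set ((Fin ρ → ℝ) ≃ₗ[ℝ] (Fin ρ → ℝ))) : Prop where
  sub : ∀ T ∈ 𝒢, ∃ u, IsUnitR S u ∧ Acts S Φ T u
  mul : ∀ T ∈ 𝒢, ∀ T' ∈ 𝒢, T * T' ∈ 𝒢
  inv : ∀ T ∈ 𝒢, T⁻¹ ∈ 𝒢
  idx : ∃ F : Set A, F.Finite ∧ (∀ w ∈ F, IsUnitR S w) ∧ ∀ u, IsUnitR S u → ∃ w ∈ F, ∃ T ∈ 𝒢, Acts S Φ T (u * w)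

/-- `D` is stable under `a ↦ y* a y` for the elements `y` of the order with square zero. -/
def NilStable (S : Sys A r) (Φ : (Fin ρ → ℝ) →ₗ[ℝ] A) (D : Set (Fin ρ → ℝ)) : Prop :=
  ∀ y ∈ S.R, y * y = 0 → ∀ x ∈ D, ∀ x', Φ x' = S.st y * Φ x * y → x' ∈ D

/-- closed convex cones -/
structure CCone (D : Set (Fin ρ → ℝ)) : Prop where
  closed : IsClosed D
  add : ∀ x ∈ D, ∀ z ∈ D, x + z ∈ D
  smul : ∀ t : ℝ, 0 ≤ t → ∀ x ∈ D, t • x ∈ D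

/-! ### the modules -/

/-- TOP: topology of the cones -/
def S_TOP : Prop := ∀ (A : Type) [Ring A] [Algebra ℝ A] (r ρ : ℕ) (S : Sys A r) (Φ : (Fin ρ → ℝ) →ₗ[ℝ] A), Herm S Φ →
  IsOpenCone (pd S Φ) ∧ closure (pd S Φ) = psd S Φ ∧ interior (psd S Φ) = pd S Φ ∧ (pd S Φ).Nonempty ∧
  CCone (psd S Φ)

/-- NIL: a closed convex cone which is stable under `𝒢` is stable under `a ↦ y* a y`, `y` in the order with `y² = 0`
(`1 + m k y` acts by an element of `𝒢` for some `m ≥ 1` and all integers `k`; divide by `k²`) -/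
def S_NIL : Prop := ∀ (A : Type) [Ring A] [Algebra ℝ A] (r ρ : ℕ) (S : Sys A r) (Φ : (Fin ρ → ℝ) →ₗ[ℝ] A), Herm S Φ →
  ∀ 𝒢 : Set ((Fin ρ → ℝ) ≃ₗ[ℝ] (Fin ρ → ℝ)), FinIdxU S Φ 𝒢 → ∀ D : Set (Fin ρ → ℝ), CCone D →
  (∀ T ∈ 𝒢, ∀ x ∈ D, T x ∈ D) → NilStable S Φ D

/-- SEP: a closed convex cone which contains all `(x z)* a (x z)`, `z ∈ A`, where `x` generates `A` as an ideal and
`a` is positive definite, contains all positive semidefinite elements (separate by `a ↦ tr (b a)`, `b` self-adjoint,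
and use the spectral projection of `b` for the negative eigenvalues, a polynomial in `b`) -/
def S_SEP : Prop := ∀ (A : Type) [Ring A] [Algebra ℝ A] (r ρ : ℕ) (S : Sys A r) (Φ : (Fin ρ → ℝ) →ₗ[ℝ] A), Herm S Φ →
  ∀ D : Set (Fin ρ → ℝ), CCone D → ∀ x a : A, Full x → S.Pd a →
  (∀ z : A, ∀ x', Φ x' = S.st (x * z) * a * (x * z) → x' ∈ D) → psd S Φ ⊆ D

/-- DENS: density of the real multiples of the elements of the order which are invertible in `A` -/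
def S_DENS : Prop := ∀ (A : Type) [Ring A] [Algebra ℝ A] (r ρ : ℕ) (S : Sys A r) (Φ : (Fin ρ → ℝ) →ₗ[ℝ] A), Herm S Φ →
  ∀ D : Set (Fin ρ → ℝ), CCone D → ∀ b₁ b₂ h : A, S.st h = h →
  (∀ z ∈ S.R, IsUnit z → ∀ x', Φ x' = S.st (b₁ * z * b₂) * h * (b₁ * z * b₂) → x' ∈ D) →
  ∀ z : A, ∀ x', Φ x' = S.st (b₁ * z * b₂) * h * (b₁ * z * b₂) → x' ∈ D

/-- INV: inverses of the elements of the order which are invertible in `A` -/
def S_INV : Prop := ∀ (A : Type) [Ring A] [Algebra ℝ A] (r : ℕ) (S : Sys A r), ∀ u ∈ S.R, IsUnit u →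
  ∃ d : ℤ, d ≠ 0 ∧ ∃ v ∈ S.R, u * v = (d : A) ∧ v * u = (d : A)

/-- RIG1: first half of the rigidity; from SEP, DENS, INV -/
def S_RIG1 : Prop := ∀ (A : Type) [Ring A] [Algebra ℝ A] (r ρ : ℕ) (S : Sys A r) (Φ : (Fin ρ → ℝ) →ₗ[ℝ] A), Herm S Φ →
  ∀ D : Set (Fin ρ → ℝ), CCone D → NilStable S Φ D → (D ∩ pd S Φ).Nonempty → psd S Φ ⊆ D

/-- RIG2: rigidity; from TOP, RIG1 (apply RIG1 to the dual cone of `D`) -/
def S_RIG2 : Prop := ∀ (A : Type) [Ring A] [Algebra ℝ A] (r ρ : ℕ) (S : Sys A r) (Φ : (Fin ρ → ℝ) →ₗ[ℝ] A), Herm S Φ →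
  ∀ D : Set (Fin ρ → ℝ), CCone D → (∀ x ∈ D, -x ∈ D → x = 0) → NilStable S Φ D → (D ∩ pd S Φ).Nonempty →
  D = psd S Φ

/-- COV: the open cone is covered by the translates of a rational polyhedral cone (from
`Pool.Agent.Y167.reduction`) -/
def S_COV : Prop := ∀ (A : Type) [Ring A] [Algebra ℝ A] (r ρ : ℕ) (S : Sys A r) (Φ : (Fin ρ → ℝ) →ₗ[ℝ] A), Herm S Φ →
  ∀ 𝒢 : Set ((Fin ρ → ℝ) ≃ₗ[ℝ] (Fin ρ → ℝ)), FinIdxU S Φ 𝒢 →
  ∃ F : Finset (Fin ρ → ℝ), (∀ v ∈ F, v ∈ IntL ρ ∧ v ∈ psd S Φ) ∧ ∀ x ∈ pd S Φ, ∃ T ∈ 𝒢, T x ∈ cone F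

/-- EXP: if translates of a rational polyhedral cone cover `E` then `E` contains the integral vectors `e` on rationally
exposed rays of the closed cone (count the integral functionals `ξ ≥ 0` on `C` with `⟨x, ξ⟩ ≤ 1` for
`x = e + ε p = T (ε w)`) -/
def S_EXP : Prop := ∀ (ρ : ℕ) (P : Set (Fin ρ → ℝ)), IsOpenCone P → P.Nonempty → interior (closure P) = P →
  ∀ (𝒢 : Set ((Fin ρ → ℝ) ≃ₗ[ℝ] (Fin ρ → ℝ))),
  (∀ T ∈ 𝒢, ∀ x ∈ IntL ρ, T x ∈ IntL ρ ∧ T.symm x ∈ IntL ρ) →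
  (∀ T ∈ 𝒢, ∀ x ∈ closure P, T x ∈ closure P ∧ T.symm x ∈ closure P) →
  ∀ E : Set (Fin ρ → ℝ), P ⊆ E → E ⊆ closure P → (∀ t : ℝ, 0 ≤ t → ∀ x ∈ E, t • x ∈ E) →
  ∀ S : Finset (Fin ρ → ℝ), (∀ s ∈ S, s ∈ IntL ρ) → E = ⋃ T ∈ 𝒢, T '' cone S →
  ∀ e ∈ IntL ρ, e ∈ closure P → ∀ q : Fin ρ → ℤ, (∀ x ∈ closure P, 0 ≤ ∑ i, (q i : ℝ) * x i) →
  ∑ i, (q i : ℝ) * e i = 0 → (∀ x ∈ closure P, ∑ i, (q i : ℝ) * x i = 0 → ∃ t : ℝ, 0 ≤ t ∧ x = t • e) → e ∈ E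

end Pool.Agent.L0h18.HZ
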