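import Pool.Agent.L0h18.HZ.Defs
import Pool.Agent.L0h18.CO.Geo
import Pool.Agent.L0h18.CO.Nef

/-!
# HZ: cones of divisor classes and fundamental domains, from a rigidity property and a covering
-/

set_option autoImplicit false
set_option linter.unusedSectionVars false

open FF Pool.Agent.W602.GT Pool.Agent.Y172 Pool.Agent.R887
open Pool.Agent.Y167 (cone cone_image cone_ind zero_mem_cone mem_cone_self cone_add cone_smul
  cone_mono)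
open Pool.Agent.N110 Pool.Agent.N110.PA Pool.Agent.N110.NV Pool.Agent.N492.PA Pool.Agent.N110.CC
open Pool.Agent.N165.KM (IntL Sandwich HasFD interior_add_mem interior_smul_mem)
open Pool.Agent.L0h18.CO
open Filter Topology

namespace Pool.Agent.L0h18.HZ

section

variable {K : Type} [Field K] [Algebra ℂ K] {N n ρ : ℕ} {y : Fin (N + 1) → K}
  {c : Place ℂ K → Fin ρ → ℤ} {𝒮 𝒯 : Subgroup (K ≃ₐ[ℂ] K)} {P C : Set (Fin ρ → ℝ)}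

/-- every invariant closed convex cone which meets `P` and contains no line is `C` -/
def Rigid (𝒢 : Set ((Fin ρ → ℝ) ≃ₗ[ℝ] (Fin ρ → ℝ))) (P C : Set (Fin ρ → ℝ)) : Prop :=
  ∀ D : Set (Fin ρ → ℝ), CCone D → (∀ x ∈ D, -x ∈ D → x = 0) → (∀ T ∈ 𝒢, ∀ x ∈ D, T x ∈ D) →
    (D ∩ P).Nonempty → D = C

/-- The closure of the effective cone and the closed movable cone are `C`. -/
theorem cones_eqG (hy : NormalModel y) (hn : Algebra.trdeg ℂ K = n) (hn0 : 0 < n)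
    (hc : PicardBasis y c) (h𝒮 : ∀ φ ∈ 𝒮, PseudoAut φ y) (hint' : interior C = P)
    (rig : Rigid (pulls y c 𝒮) P C) (hex : (P ∩ closure (effCone y c)).Nonempty) :
    CE y c = C ∧ movCone y c = C := by
  have hpc := pc_eff hc.numClasses
  have hlat := lat hy hc h𝒮
  obtain ⟨x₀, hx₀, hx₀'⟩ := hex
  have hx₀C := closure_eff hy hc hx₀'
  have h1 : CE y c = C := rig _ ⟨hpc.closed, hpc.add, hpc.smul⟩ hpc.pointed hlat.pres ⟨x₀, hx₀C, hx₀⟩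
  obtain ⟨i, hi⟩ := hy.ne
  obtain ⟨Hy, hHe, hH⟩ := exists_hyp hy hi
  obtain ⟨g, hg⟩ : ∃ g, g = toR (cls y (cQ c) Hy) := ⟨_, rfl⟩
  have hint : g ∈ interior (CE y c) := hg ▸ hyp_intN hy hc hi hHe hH
  obtain ⟨D, -, hDm, hD⟩ := Pool.Agent.N93.CC.leafHYP K N n ρ y hy hn hn0 c i hi Hy hHe hH
  have hmem : g ∈ movCone y c := by
    rw [hg, ← hD]
    exact subset_closure (coneOf_self ⟨D, hDm, rfl⟩)
  have hsub := mov_sub hy hn hn0 hc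
  refine ⟨h1, rig _ ⟨isClosed_closure, fun x hx z hz => closure_coneOf_add hx hz,
    fun t ht x hx => closure_coneOf_smul hx ht⟩ (fun x hx hx' => hpc.pointed x (hsub hx) (hsub hx'))
    (fun T hT x hx => mov_pres hy h𝒮 hT hx) ⟨g, hmem, ?_⟩⟩
  rw [← hint', ← h1]
  exact hint

/-- The closed nef cone is `C`. -/
theorem nef_eqG (hy : NormalModel y) (hn : Algebra.trdeg ℂ K = n) (hn0 : 0 < n)
    (hc : PicardBasis y c) (h𝒮 : ∀ φ ∈ 𝒮, IsAut φ y) (hint' : interior C = P)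
    (rig : Rigid (pulls y c 𝒮) P C) (hex : (P ∩ closure (effCone y c)).Nonempty) :
    CE y c = C ∧ nefCone y n c = C := by
  have hfr := fun φ hφ => Pool.Agent.N265.CC.leafFREE K N n y hy φ (h𝒮 φ hφ)
  obtain ⟨h1, -⟩ := cones_eqG hy hn hn0 hc (fun φ hφ => (hfr φ hφ).1) hint' rig hex
  have hpc := pc_eff hc.numClasses
  obtain ⟨i, hi⟩ := hy.ne
  obtain ⟨Hy, hHe, hH⟩ := exists_hyp hy hi
  obtain ⟨g, hg⟩ : ∃ g, g = toR (cls y (cQ c) Hy) := ⟨_, rfl⟩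
  have hint : g ∈ interior (CE y c) := hg ▸ hyp_intN hy hc hi hHe hH
  obtain ⟨D, hDf, -, hD⟩ := Pool.Agent.N93.CC.leafHYP K N n ρ y hy hn hn0 c i hi Hy hHe hH
  have hmem : g ∈ nefCone y n c := by
    rw [hg, ← hD]
    exact subset_closure (coneOf_self ⟨D, hDf, rfl⟩)
  have hsub := nef_sub hy hn hn0 hc
  refine ⟨h1, rig _ ⟨isClosed_closure, fun x hx z hz => closure_coneOf_add hx hz,
    fun t ht x hx => closure_coneOf_smul hx ht⟩ (fun x hx hx' => hpc.pointed x (hsub hx) (hsub hx'))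
    (fun T hT x hx => nef_pres hy h𝒮 hT hx) ⟨g, hmem, ?_⟩⟩
  rw [← hint', ← h1]
  exact hint

/-- The fundamental domain. -/
theorem fundG (hy : NormalModel y) (hc : PicardBasis y c) (h𝒮𝒯 : 𝒮 ≤ 𝒯)
    (h𝒯 : ∀ φ ∈ 𝒯, PseudoAut φ y) (hC : CCone C) (hCp : ∀ x ∈ C, -x ∈ C → x = 0) (hint' : interior C = P)
    (hPne : P.Nonempty) {F : Finset (Fin ρ → ℝ)} (hcov : ∀ x ∈ P, ∃ T ∈ pulls y c 𝒮, T x ∈ cone F)
    (hF : ∀ a ∈ F, a ∈ IntL ρ) {E : Set (Fin ρ → ℝ)}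
    (hE1 : E ⊆ C) (hE2 : P ⊆ E) (hEa : ∀ x ∈ E, ∀ z ∈ E, x + z ∈ E)
    (hEs : ∀ t : ℝ, 0 ≤ t → ∀ x ∈ E, t • x ∈ E) (hEi : ∀ T ∈ pulls y c 𝒯, ∀ x ∈ E, T x ∈ E)
    (hEc : ∀ x ∈ E, ∃ S : Finset (Fin ρ → ℝ), (∀ a ∈ S, a ∈ IntL ρ ∧ a ∈ E) ∧ x ∈ cone S)
    (hFE : ∀ a ∈ F, a ∈ E) : HasFundDomain (pulls y c 𝒯) E := by
  classical
  obtain ⟨M, hM⟩ := exists_rep (𝒮 := 𝒯) hy hc h𝒯
  obtain ⟨h, hhP⟩ := hPne
  obtain ⟨pull, hpull⟩ : ∃ pull : 𝒯 → ((Fin ρ → ℝ) ≃ₗ[ℝ] (Fin ρ → ℝ)),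
    ∀ ψ, pull ψ = hM.TE ψ⁻¹ := ⟨_, fun _ => rfl⟩
  have hmemp : ∀ ψ : 𝒯, hM.TE ψ ∈ pulls y c 𝒯 := fun ψ => (mem_pulls hc hM).2 ⟨ψ, rfl⟩
  have hfd : HasFD pull E := by
    refine HasFD.of_cover (C := C) ⟨hC.closed, hC.add, hC.smul, hCp,
      ⟨h, by rw [hint']; exact hhP⟩, hE1, by rw [hint']; exact hE2, hEa, hEs⟩
      (fun f g => by rw [hpull, hpull, hpull, mul_inv_rev, hM.TE_mul]) (fun f x hx => ?_)
      (fun f x hx => ?_) hEc F (fun a ha => ⟨hF a ha, hFE a ha⟩)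
      (fun x hx => ?_)
    · rw [hpull, hM.TE_apply]
      exact TR_int _ hx
    · rw [hpull]
      exact hEi _ (hmemp _) x hx
    · rw [hint'] at hx
      obtain ⟨T, ⟨ψ, hψ, hT⟩, hTx⟩ := hcov x hx
      have hT' : T ∈ pulls y c 𝒯 := ⟨ψ, h𝒮𝒯 hψ, hT⟩
      obtain ⟨φ, rfl⟩ := (mem_pulls hc hM).1 hT'
      refine ⟨φ⁻¹, ?_⟩
      rw [hpull, inv_inv]
      exact hTx
  obtain ⟨S, hS, hU, hdis⟩ := hfd
  have hset : ∀ T, T ∈ pulls y c 𝒯 ↔ ∃ f : 𝒯, T = pull f := by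
    intro T
    rw [mem_pulls hc hM]
    constructor
    · rintro ⟨ψ, rfl⟩
      exact ⟨ψ⁻¹, by rw [hpull, inv_inv]⟩
    · rintro ⟨f, rfl⟩
      exact ⟨f⁻¹, hpull f⟩
  refine ⟨S, hS, ?_, fun T hT hT1 => ?_⟩
  · rw [hU]
    ext x
    simp only [Set.mem_iUnion]
    constructor
    · rintro ⟨f, hf⟩
      exact ⟨pull f, (hset _).2 ⟨f, rfl⟩, hf⟩
    · rintro ⟨T, hT, hx⟩
      obtain ⟨f, rfl⟩ := (hset T).1 hT
      exact ⟨f, hx⟩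
  · obtain ⟨f, rfl⟩ := (hset T).1 hT
    exact hdis f hT1

theorem eff_presG (hy : NormalModel y) (hc : PicardBasis y c) (h𝒯 : ∀ φ ∈ 𝒯, PseudoAut φ y)
    {T : (Fin ρ → ℝ) ≃ₗ[ℝ] (Fin ρ → ℝ)} (hT : T ∈ pulls y c 𝒯) {x : Fin ρ → ℝ} (hx : x ∈ effCone y c) :
    T x ∈ effCone y c := by
  obtain ⟨M, hM⟩ := exists_rep (𝒮 := 𝒯) hy hc h𝒯
  obtain ⟨φ, rfl⟩ := (mem_pulls hc hM).1 hT
  rw [hM.TE_apply]
  exact presE_S hM _ φ.2 x hx

/-- `e` is an integral vector on a rationally exposed ray of `C` -/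
def Exposed (C : Set (Fin ρ → ℝ)) (e : Fin ρ → ℝ) : Prop :=
  (∀ i, ∃ m : ℤ, e i = (m : ℝ)) ∧ e ∈ C ∧ ∃ q : Fin ρ → ℤ, (∀ x ∈ C, 0 ≤ ∑ i, (q i : ℝ) * x i) ∧
    ∑ i, (q i : ℝ) * e i = 0 ∧ ∀ x ∈ C, ∑ i, (q i : ℝ) * x i = 0 → ∃ t : ℝ, 0 ≤ t ∧ x = t • e

/-- **main theorem** -/
theorem mainG (hexp : S_EXP) (hy : NormalModel y) (hc : PicardBasis y c) (h𝒮𝒯 : 𝒮 ≤ 𝒯)
    (h𝒯 : ∀ φ ∈ 𝒯, PseudoAut φ y) (hC : CCone C) (hop : IsOpenCone P) (hcl : closure P = C)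
    (hint' : interior C = P)
    (hPne : P.Nonempty) {F₀ : Finset (Fin ρ → ℝ)} (hcov : ∀ x ∈ P, ∃ T ∈ pulls y c 𝒮, T x ∈ cone F₀)
    (hF₀ : ∀ a ∈ F₀, a ∈ IntL ρ ∧ a ∈ C)
    (hCE : CE y c = C) {A : Set (Fin ρ → ℝ)} (hA : A = C) :
    HasFundDomain (pulls y c 𝒯) (coneOf {x : Fin ρ → ℝ | (∀ i, ∃ m : ℤ, x i = (m : ℝ)) ∧ x ∈ A}) ∧
    (HasFundDomain (pulls y c 𝒯) (A ∩ effCone y c) → ∀ e, Exposed A e → e ∈ effCone y c) ∧
    ∃ F : Finset (Fin ρ → ℝ), (∀ e ∈ F, (∀ i, ∃ m : ℤ, e i = (m : ℝ)) ∧ e ∈ A) ∧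
      ((∀ e ∈ F, e ∈ effCone y c) → HasFundDomain (pulls y c 𝒯) (A ∩ effCone y c) ∧
        ∀ e ∈ A, (∀ i, ∃ m : ℤ, e i = (m : ℝ)) → e ∈ effCone y c) := by
  classical
  subst hA
  have hpc := pc_eff hc.numClasses
  have hlat := lat hy hc h𝒯
  have hCp : ∀ x ∈ A, -x ∈ A → x = 0 := by
    intro x hx hx'
    rw [← hcl] at hx hx'
    exact hop.pointed x hx hx'
  obtain ⟨hE1, hE2⟩ := Pool.Agent.N40.CC.leafEFF K N ρ y hy c hc
  have hAE : A ∩ effCone y c = effCone y c := by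
    rw [← hCE]
    exact Set.inter_eq_right.2 hE1
  have hPE : P ⊆ effCone y c := by
    rw [← hint', ← hCE]
    exact hE2
  have hEn : effCone y c ⊆ A := by
    rw [← hCE]
    exact hE1
  have hpresC : ∀ T ∈ pulls y c 𝒯, ∀ x ∈ A, T x ∈ A := by
    intro T hT x hx
    rw [← hCE] at hx ⊢
    exact hlat.pres T hT x hx
  -- the rational hull
  have hull_sub : coneOf {x : Fin ρ → ℝ | (∀ i, ∃ m : ℤ, x i = (m : ℝ)) ∧ x ∈ A} ⊆ A := by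
    intro x hx
    exact coneOf_ind (p := fun x => x ∈ A)
      (by obtain ⟨h, hh⟩ := hPne
          have := hC.smul 0 le_rfl h (hcl ▸ subset_closure hh)
          rwa [zero_smul] at this)
      (fun x z hx hz => hC.add x hx z hz) (fun t x ht hx => hC.smul t ht x hx)
      (fun a ha => ha.2) hx
  have hull_P : P ⊆ coneOf {x : Fin ρ → ℝ | (∀ i, ∃ m : ℤ, x i = (m : ℝ)) ∧ x ∈ A} := by
    intro x hx
    obtain ⟨T, ⟨ψ, hψ, hT⟩, hTx⟩ := hcov x hx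
    have hT' : T ∈ pulls y c 𝒯 := ⟨ψ, h𝒮𝒯 hψ, hT⟩
    have h1 : T x ∈ coneOf {x : Fin ρ → ℝ | (∀ i, ∃ m : ℤ, x i = (m : ℝ)) ∧ x ∈ A} :=
      ⟨F₀, fun a ha => ⟨(hF₀ a ha).1, (hF₀ a ha).2⟩, hTx⟩
    have h2 := coneOf_map (T.symm : (Fin ρ → ℝ) →ₗ[ℝ] (Fin ρ → ℝ))
      (B := {x : Fin ρ → ℝ | (∀ i, ∃ m : ℤ, x i = (m : ℝ)) ∧ x ∈ A})
      (fun a ha => ⟨hlat.int _ (hlat.symm T hT') a ha.1, hpresC _ (hlat.symm T hT') a ha.2⟩) h1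
    simpa using h2
  have hplus : HasFundDomain (pulls y c 𝒯) (coneOf {x : Fin ρ → ℝ | (∀ i, ∃ m : ℤ, x i = (m : ℝ)) ∧ x ∈ A}) := by
    refine fundG hy hc h𝒮𝒯 h𝒯 hC hCp hint' hPne hcov (fun a ha => (hF₀ a ha).1) hull_sub hull_P
      (fun x hx z hz => coneOf_add hx hz)
      (fun t ht x hx => coneOf_smul hx ht) (fun T hT x hx => ?_) (fun x hx => ?_)
      (fun e he => coneOf_self ⟨(hF₀ e he).1, (hF₀ e he).2⟩)
    · exact coneOf_map (T : (Fin ρ → ℝ) →ₗ[ℝ] (Fin ρ → ℝ))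
        (B := {x : Fin ρ → ℝ | (∀ i, ∃ m : ℤ, x i = (m : ℝ)) ∧ x ∈ A})
        (fun a ha => ⟨hlat.int T hT a ha.1, hpresC T hT a ha.2⟩) hx
    · obtain ⟨S, hS, hx⟩ := hx
      exact ⟨S, fun a ha => ⟨(hS ha).1, coneOf_self (hS ha)⟩, hx⟩
  refine ⟨hplus, ?_, ?_⟩
  · rw [hAE]
    rintro ⟨S, hS, hU, -⟩ e ⟨he, heA, q, hq0, hqe, hq⟩
    refine hexp ρ P hop hPne (by rw [hcl]; exact hint') (pulls y c 𝒯) (fun T hT x hx => ⟨hlat.int T hT x hx,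
      hlat.int _ (hlat.symm T hT) x hx⟩) (fun T hT x hx => ?_) (effCone y c) hPE (by rw [hcl]; exact hEn)
      (fun t ht x hx => coneOf_smul hx ht) S hS hU e he (by rw [hcl]; exact heA) q (by rw [hcl]; exact hq0) hqe
      (by rw [hcl]; exact hq)
    rw [hcl] at hx ⊢
    exact ⟨hpresC T hT x hx, hpresC _ (hlat.symm T hT) x hx⟩
  · have hplus' := hplus
    obtain ⟨S, hS, hU, hdis⟩ := hplus'
    have hSA : ∀ s ∈ S, s ∈ A := by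
      intro s hs
      -- some translate is in the hull
      have h1 : (1 : (Fin ρ → ℝ) ≃ₗ[ℝ] (Fin ρ → ℝ)) ∈ pulls y c 𝒯 := by
        refine ⟨1, 𝒯.one_mem, fun P Q hP hPQ => ?_⟩
        rw [image_iff, comap_one] at hPQ
        rw [hPQ]
        rfl
      refine hull_sub ?_
      rw [hU]
      simp only [Set.mem_iUnion]
      exact ⟨1, h1, s, mem_cone_self hs, rfl⟩
    refine ⟨S, fun e he => ⟨hS e he, hSA e he⟩, fun hall => ?_⟩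
    have hEH : effCone y c = coneOf {x : Fin ρ → ℝ | (∀ i, ∃ m : ℤ, x i = (m : ℝ)) ∧ x ∈ A} := by
      refine Set.Subset.antisymm ?_ ?_
      · intro x hx
        refine coneOf_ind (p := fun x => x ∈ coneOf {x : Fin ρ → ℝ | (∀ i, ∃ m : ℤ, x i = (m : ℝ)) ∧ x ∈ A})
          (coneOf_zero _) (fun x z hx hz => coneOf_add hx hz) (fun t x ht hx => coneOf_smul hx ht)
          (fun a ha => coneOf_self ⟨?_, hEn (coneOf_self ha)⟩) hx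
        obtain ⟨P, hP, h1⟩ := ha
        rw [h1]
        exact fun i => ⟨c P i, rfl⟩
      · rw [hU]
        intro x hx
        simp only [Set.mem_iUnion, Set.mem_image] at hx
        obtain ⟨T, hT, z, hz, rfl⟩ := hx
        refine eff_presG hy hc h𝒯 hT ?_
        exact cone_ind (p := fun x => x ∈ effCone y c) (coneOf_zero _) (fun x z hx hz => coneOf_add hx hz)
          (fun t x ht hx => coneOf_smul hx ht) (fun a ha => hall a ha) hz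
    rw [hAE]
    refine ⟨by rw [hEH]; exact hplus, fun e he he' => ?_⟩
    rw [hEH]
    exact coneOf_self ⟨he', he⟩

end

end Pool.Agent.L0h18.HZ
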